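import Pool.Agent.W15.SG.KAZ
import Pool.Agent.W334.SG.SmallLarge
import Pool.Agent.W907.SM.All
import Pool.Agent.P8H64.TP.Bet

/-!
# Kazhdan's inequality with numbers

The normalised Betti numbers of finite `W_G`-sets with large injectivity radius are at most the `ℓ²`-Betti number plus
`ε`. The proof follows `Pool.Agent.W15.SG` (the case where the `ℓ²`-Betti number is zero).
-/

set_option autoImplicit false
set_option linter.unusedSectionVars false

namespace Pool.Agent.P8H64.TQ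

open Pool.Agent.W907.SG Pool.Agent.W907.SM Pool.Agent.W15.SG Pool.Agent.P8H64.TP Module Filter Topology

section limit

variable {Γ 𝓣 𝓣' J : Type} [Group Γ] [Fintype 𝓣] [Fintype 𝓣'] [Fintype J]
  (γ : J → Γ) (b : J → 𝓣' → 𝓣 → ℤ)

theorem limitN {C : ℝ} (hC : 0 < C)
    (hb : ∀ v : Γ × 𝓣' →₀ ℝ, ip (opBt γ b (fun g h : Γ => g * h) v)
      (opBt γ b (fun g h : Γ => g * h) v) ≤ C * ip v v)
    (τ₀ : 𝓣) {M : ℝ} (hM : 0 ≤ M)
    (h0 : ∀ c : Γ → 𝓣 → ℝ, (Summable fun x : Γ × 𝓣 => (c x.1 x.2) ^ 2) →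
      (∀ g τ', ∑ j, ∑ τ, (b j τ' τ : ℝ) * c (g * γ j) τ = 0) →
      (c 1 τ₀) ^ 2 ≤ M * ∑' x : Γ × 𝓣, (c x.1 x.2) ^ 2)
    {ε : ℝ} (hε : 0 < ε) : ∃ m₀ : ℕ, ∀ m ≥ m₀,
      ip ((opT γ b C (fun g h : Γ => g * h) ^ m) (Finsupp.single (1, τ₀) 1))
        ((opT γ b C (fun g h : Γ => g * h) ^ m) (Finsupp.single (1, τ₀) 1)) ≤ M + ε := by
  classical
  have h1 : ∀ x : Γ, x * 1 = x := mul_one
  have h2 : ∀ x g h : Γ, x * (g * h) = x * g * h := fun x g h => (mul_assoc x g h).symm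
  set T := opT γ b C (fun g h : Γ => g * h) with hT
  set B := opB γ b (fun g h : Γ => g * h) with hB
  set e : Γ × 𝓣 →₀ ℝ := Finsupp.single (1, τ₀) 1 with he
  let a : ℕ → ℝ := fun m => ip ((T ^ m) e) ((T ^ m) e)
  have hstep : ∀ m, a (m + 1) ≤ a m - C⁻¹ * ip (B ((T ^ m) e)) (B ((T ^ m) e)) := by
    intro m
    have := decay γ b (act := fun g h : Γ => g * h) h1 h2 hC hb ((T ^ m) e)
    simp only [a]
    rw [pow_succ', Module.End.mul_apply]
    exact this
  have hanti : Antitone a := antitone_nat_of_succ_le fun m => by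
    have := hstep m
    have h3 : 0 ≤ C⁻¹ * ip (B ((T ^ m) e)) (B ((T ^ m) e)) :=
      mul_nonneg (inv_pos.2 hC).le (nrm_nonneg _)
    linarith
  have ha0 : ∀ m, 0 ≤ a m := fun m => nrm_nonneg _
  have haone : ∀ m, a m ≤ 1 := by
    intro m
    refine (hanti (Nat.zero_le m)).trans (le_of_eq ?_)
    simp only [a, pow_zero, Module.End.one_apply]
    rw [he, ip_single_left]
    simp
  obtain ⟨l, hl⟩ : ∃ l, Tendsto a atTop (𝓝 l) :=
    ⟨_, tendsto_atTop_ciInf hanti ⟨0, by rintro _ ⟨m, rfl⟩; exact ha0 m⟩⟩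
  have hB0 : Tendsto (fun m => ip (B ((T ^ m) e)) (B ((T ^ m) e))) atTop (𝓝 0) := by
    have h3 : Tendsto (fun m => C * (a m - a (m + 1))) atTop (𝓝 0) := by
      have := (hl.sub (hl.comp (tendsto_add_atTop_nat 1))).const_mul C
      simpa using this
    refine squeeze_zero (fun m => nrm_nonneg _) (fun m => ?_) h3
    have := hstep m
    have h4 : C⁻¹ * ip (B ((T ^ m) e)) (B ((T ^ m) e)) ≤ a m - a (m + 1) := by linarith
    rwa [inv_mul_le_iff₀ hC] at h4
  -- ultrafilter limit of the even iterates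
  let U : Ultrafilter ℕ := Filter.hyperfilter ℕ
  have hU : (U : Filter ℕ) ≤ atTop := Nat.hyperfilter_le_atTop
  have hlim : ∀ i : Γ × 𝓣, ∃ w : ℝ, Tendsto (fun m => ((T ^ (2 * m)) e) i) U (𝓝 w) := by
    intro i
    have hc : IsCompact (Set.Icc (-1 : ℝ) 1) := isCompact_Icc
    obtain ⟨w, -, hw⟩ := hc.ultrafilter_le_nhds (U.map (fun m => ((T ^ (2 * m)) e) i)) (by
      rw [le_principal_iff]
      refine Filter.mem_map.2 (Filter.Eventually.of_forall fun m => ?_)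
      have h5 := (sq_le_nrm ((T ^ (2 * m)) e) i).trans (haone (2 * m))
      have h6 : |((T ^ (2 * m)) e) i| ≤ 1 := abs_le_one_iff_mul_self_le_one.2 (by nlinarith)
      exact abs_le.1 h6)
    exact ⟨w, hw⟩
  choose w hw using hlim
  have hmul : Tendsto (fun m : ℕ => 2 * m) U atTop :=
    (tendsto_id.const_mul_atTop' (by norm_num : 0 < 2)).mono_left hU
  have hfin : ∀ F : Finset (Γ × 𝓣), ∑ i ∈ F, (w i) ^ 2 ≤ l := by
    intro F
    have h6 : Tendsto (fun m => ∑ i ∈ F, (((T ^ (2 * m)) e) i) ^ 2) U (𝓝 (∑ i ∈ F, (w i) ^ 2)) :=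
      tendsto_finsetSum _ fun i _ => (hw i).pow 2
    exact le_of_tendsto_of_tendsto' h6 (hl.comp hmul) fun m => sum_sq_le _ F
  have hsummable : Summable fun x : Γ × 𝓣 => (w x) ^ 2 :=
    summable_of_sum_le (c := l) (fun _ => sq_nonneg _) hfin
  have hnorm : ∑' x : Γ × 𝓣, (w x) ^ 2 ≤ l := hsummable.tsum_le_of_sum_le hfin
  have hzero : ∀ g τ', ∑ j, ∑ τ, (b j τ' τ : ℝ) * w (g * γ j, τ) = 0 := by
    intro g τ'
    have h7 : Tendsto (fun m => ∑ j, ∑ τ, (b j τ' τ : ℝ) * ((T ^ (2 * m)) e) (g * γ j, τ)) U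
        (𝓝 (∑ j, ∑ τ, (b j τ' τ : ℝ) * w (g * γ j, τ))) :=
      tendsto_finsetSum _ fun j _ => tendsto_finsetSum _ fun τ _ => (hw _).const_mul _
    have h8 : Tendsto (fun m => ∑ j, ∑ τ, (b j τ' τ : ℝ) * ((T ^ (2 * m)) e) (g * γ j, τ)) U
        (𝓝 0) := by
      have h9 : ∀ m, ∑ j, ∑ τ, (b j τ' τ : ℝ) * ((T ^ (2 * m)) e) (g * γ j, τ) =
          B ((T ^ (2 * m)) e) (g, τ') := fun m =>
        (opB_eval γ b (act := fun g h : Γ => g * h) h1 h2 _ g τ').symm
      simp only [h9]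
      have h10 : Tendsto (fun m => (B ((T ^ (2 * m)) e) (g, τ')) ^ 2) U (𝓝 0) :=
        squeeze_zero (fun m => sq_nonneg _) (fun m => sq_le_nrm _ _) (hB0.comp hmul)
      rw [tendsto_zero_iff_abs_tendsto_zero]
      have h11 := h10.sqrt
      rw [Real.sqrt_zero] at h11
      refine h11.congr fun m => ?_
      simp [Real.sqrt_sq_eq_abs]
    exact tendsto_nhds_unique h7 h8
  have hw0 := h0 (fun g τ => w (g, τ)) hsummable hzero
  have h13 : ∀ m, ((T ^ (2 * m)) e) (1, τ₀) = a m := by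
    intro m
    have h14 : ip ((T ^ (2 * m)) e) e = ((T ^ (2 * m)) e) (1, τ₀) := by
      conv_lhs => rw [show e = Finsupp.single (1, τ₀) 1 from he]
      rw [ip_single_right, one_mul, ← he]
    rw [← h14, two_mul, pow_add, Module.End.mul_apply]
    exact adjTpow γ b (act := fun g h : Γ => g * h) h1 h2 C m _ _
  have h12 : w (1, τ₀) = l := by
    have h15 : Tendsto (fun m => ((T ^ (2 * m)) e) (1, τ₀)) U (𝓝 l) := by
      simp only [h13]
      exact hl.mono_left hU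
    exact tendsto_nhds_unique (hw (1, τ₀)) h15
  have hlM : l ≤ M := by
    have h16 : l ^ 2 ≤ M * l := by
      calc l ^ 2 = (w (1, τ₀)) ^ 2 := by rw [h12]
        _ ≤ M * ∑' x : Γ × 𝓣, (w (x.1, x.2)) ^ 2 := hw0
        _ ≤ M * l := mul_le_mul_of_nonneg_left hnorm hM
    have hl0 : 0 ≤ l := ge_of_tendsto' hl ha0
    rcases hl0.eq_or_lt with h | h
    · rw [← h]; exact hM
    · nlinarith
  obtain ⟨m₀, hm₀⟩ := (hl.eventually (gt_mem_nhds (show l < M + ε by linarith))).exists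
  exact ⟨m₀, fun m hm => (hanti hm).trans hm₀.le⟩

end limit

/-- Kazhdan's inequality -/
theorem kazN {Γ 𝓣 𝓣' J : Type} [Group Γ] [Fintype 𝓣] [Fintype 𝓣'] [Fintype J]
    (γ : J → Γ) (b : J → 𝓣' → 𝓣 → ℤ) (M : 𝓣 → ℝ) (hM : ∀ τ, 0 ≤ M τ)
    (h0 : ∀ (τ₀ : 𝓣) (c : Γ → 𝓣 → ℝ), (Summable fun x : Γ × 𝓣 => (c x.1 x.2) ^ 2) →
      (∀ g τ', ∑ j, ∑ τ, (b j τ' τ : ℝ) * c (g * γ j) τ = 0) →
      (c 1 τ₀) ^ 2 ≤ M τ₀ * ∑' x : Γ × 𝓣, (c x.1 x.2) ^ 2) {δ : ℝ} (hδ : 0 < δ) :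
    ∃ E : Finset Γ, (1 : Γ) ∉ E ∧ ∀ (X : Type) [Fintype X] (act : X → Γ → X),
      (∀ x, act x 1 = x) → (∀ x g h, act x (g * h) = act (act x g) h) → (∀ g ∈ E, ∀ x, act x g ≠ x) →
      ∀ K : Submodule ℝ (X → 𝓣 → ℝ), (∀ c, c ∈ K ↔ ∀ x τ', ∑ j, ∑ τ, (b j τ' τ : ℝ) * c (act x (γ j)) τ = 0) →
        (finrank ℝ K : ℝ) ≤ (∑ τ, M τ + δ) * Fintype.card X := by
  classical
  have h1 : ∀ x : Γ, x * 1 = x := mul_one
  have h2 : ∀ x g h : Γ, x * (g * h) = x * g * h := fun x g h => (mul_assoc x g h).symm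
  obtain ⟨C, hC, hb⟩ := opBt_bound γ b (act := fun g h : Γ => g * h) h1 h2
  set ε : ℝ := δ / (Fintype.card 𝓣 + 1) with hε
  have hε0 : 0 < ε := by positivity
  choose m₀ hm₀ using fun τ₀ : 𝓣 => limitN γ b hC hb τ₀ (hM τ₀) (h0 τ₀) hε0
  set m := Finset.univ.sup m₀ with hm
  set T := opT γ b C (fun g h : Γ => g * h) with hT
  have hmm : ∀ τ, ip ((T ^ m) (Finsupp.single (1, τ) 1)) ((T ^ m) (Finsupp.single (1, τ) 1)) ≤ M τ + ε :=
    fun τ => hm₀ τ m (Finset.le_sup (Finset.mem_univ τ))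
  set A : Finset Γ := Finset.univ.biUnion fun τ : 𝓣 =>
    ((T ^ m) (Finsupp.single ((1 : Γ), τ) (1 : ℝ))).support.image Prod.fst with hA
  refine ⟨((A ×ˢ A).image fun p => p.1 * p.2⁻¹).erase 1, Finset.notMem_erase _ _, ?_⟩
  intro X _ act g1 g2 gE K hK
  have hfin := finite_level γ b g1 g2 C m K (fun c hc => (hK c).1 hc)
  have hloc : ∀ x τ, ip ((opT γ b C act ^ m) (Finsupp.single (x, τ) 1))
      ((opT γ b C act ^ m) (Finsupp.single (x, τ) 1)) ≤ M τ + ε := by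
    intro x τ
    have e1 : (Finsupp.single (x, τ) (1 : ℝ) : X × 𝓣 →₀ ℝ) =
        Finsupp.mapDomain (orb x act) (Finsupp.single ((1 : Γ), τ) (1 : ℝ)) := by
      rw [Finsupp.mapDomain_single]
      simp [orb, g1]
    rw [e1, ← nat_T γ b g2, nrm_mapDomain]
    · exact hmm τ
    · rintro ⟨g, σ⟩ hg ⟨h, σ'⟩ hh hgh
      simp only [orb, Prod.mk.injEq] at hgh
      obtain ⟨hgh1, rfl⟩ := hgh
      by_contra hne
      have hne' : g ≠ h := fun h3 => hne (by rw [h3])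
      have hgA : g ∈ A := Finset.mem_biUnion.2 ⟨τ, Finset.mem_univ _, Finset.mem_image.2 ⟨_, hg, rfl⟩⟩
      have hhA : h ∈ A := Finset.mem_biUnion.2 ⟨τ, Finset.mem_univ _, Finset.mem_image.2 ⟨_, hh, rfl⟩⟩
      have hE : g * h⁻¹ ∈ ((A ×ˢ A).image fun p => p.1 * p.2⁻¹).erase 1 := by
        rw [Finset.mem_erase]
        refine ⟨fun h4 => hne' (mul_inv_eq_one.1 h4), Finset.mem_image.2 ⟨(g, h), ?_, rfl⟩⟩
        exact Finset.mem_product.2 ⟨hgA, hhA⟩
      apply gE _ hE x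
      rw [g2, hgh1, ← g2, mul_inv_cancel, g1]
  have h5 : (finrank ℝ K : ℝ) ≤ Fintype.card X * (∑ τ, M τ + Fintype.card 𝓣 * ε) := by
    refine hfin.trans ((Finset.sum_le_sum fun x _ => Finset.sum_le_sum fun τ _ => hloc x τ).trans ?_)
    refine le_of_eq ?_
    simp only [Finset.sum_add_distrib, Finset.sum_const, Finset.card_univ, nsmul_eq_mul]
    ring
  have h6 : Fintype.card 𝓣 * ε ≤ δ := by
    rw [hε, mul_div_assoc', div_le_iff₀ (by positivity)]
    nlinarith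
  calc (finrank ℝ K : ℝ) ≤ Fintype.card X * (∑ τ, M τ + Fintype.card 𝓣 * ε) := h5
    _ ≤ Fintype.card X * (∑ τ, M τ + δ) := by
        apply mul_le_mul_of_nonneg_left _ (Nat.cast_nonneg _)
        linarith
    _ = _ := mul_comm _ _

/-- the Betti numbers of finite `W_G`-sets with large injectivity radius -/
theorem smallN {V : Type} [Fintype V] [LinearOrder V] (G : SimpleGraph V) (i : ℕ) {δ : ℝ} (hδ : 0 < δ) :
    ∃ E : Finset (W G), (1 : W G) ∉ E ∧ ∀ (X : Type) [Fintype X] (a : V → X → X) (ev : X → W G → X),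
      (∀ v x, a v (a v x) = x) → (∀ u v, G.Adj u v → ∀ x, a u (a v x) = a v (a u x)) →
      (∀ x, ev x 1 = x) → (∀ x g h, ev x (g * h) = ev (ev x g) h) → (∀ x v, ev x ((cox G).simple v) = a v x) →
      (∀ g ∈ E, ∀ x, ev x g ≠ x) → (beta G (pull ℝ a) Set.univ ∅ i : ℝ) ≤ (bet G i + δ) * Fintype.card X := by
  classical
  have hkey : ∀ c : W G → Finset V → ℝ, (Summable fun x : W G × Finset V => (c x.1 x.2) ^ 2) →
      (∀ g τ', ∑ j, ∑ τ, (Pool.Agent.W372.SG.FIN.bb G i τ' (j, τ) : ℝ) * c (g * Pool.Agent.W372.SG.FIN.gam G j) τ = 0) → IsHarm G i c := by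
    intro c hc hc2
    have h1 : ∀ g, _ := fun g => (Pool.Agent.W372.SG.FIN.eqs G i
      (fun j τ => c (g * Pool.Agent.W372.SG.FIN.gam G j) τ)).1 fun τ' => by
      rw [← Pool.Agent.W372.SG.FIN.ee_eq]
      exact hc2 g τ'
    have hn : ∀ g : W G, g * Pool.Agent.W372.SG.FIN.gam G none = g := fun g => mul_one g
    simp only [hn] at h1
    exact ⟨fun x => (h1 x).1, fun x => (h1 x).2.1, hc, fun x => (h1 x).2.2.1,
      fun x => (h1 x).2.2.2⟩
  obtain ⟨E, hE1, hE⟩ := kazN (Γ := W G) (𝓣 := Finset V) (Pool.Agent.W372.SG.FIN.gam G)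
    (fun j τ' τ => Pool.Agent.W372.SG.FIN.bb G i τ' (j, τ)) (fun T => if T.card = i then b2 G T else 0)
    (fun T => by
      show 0 ≤ if T.card = i then b2 G T else 0
      split_ifs
      · exact b2_nonneg T
      · exact le_rfl)
    (fun T c hc hc2 => by
      have hh := hkey c hc hc2
      show (c 1 T) ^ 2 ≤ (if T.card = i then b2 G T else 0) * _
      split_ifs with hT
      · subst hT
        exact le_b2 hh
      · rw [hh.supp 1 T fun h => hT h.2]
        simp) hδ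
  refine ⟨E, hE1, ?_⟩
  intro X _ a ev ha hco h1 h2 h3 h4
  have hf := hE X ev h1 h2 h4 (Pool.Agent.W334.SG.KS G i ev) (fun c => Iff.rfl)
  rw [hodr V X G a ha hco i (Pool.Agent.W334.SG.KS G i ev) (Pool.Agent.W334.SG.mem_KS' G i a ev h1 h3)] at hf
  have e : ∑ T : Finset V, (if T.card = i then b2 G T else 0) = bet G i := by
    rw [bet, ← Finset.sum_filter]
    refine Finset.sum_congr ?_ fun _ _ => rfl
    ext T
    simp [Finset.mem_powersetCard]
  rw [e] at hf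
  exact hf

/-- if the `ℓ²`-homology is concentrated in the degree `m` then the `m`-th `ℓ²`-Betti number is at least the absolute
value of the Euler characteristic (it is equal to it) -/
theorem chi_le_bet {V : Type} [Fintype V] [LinearOrder V] (G : SimpleGraph V) (m : ℕ)
    (hv : ∀ i, i ≠ m → L2Van G i) : |(chiW G : ℝ)| ≤ bet G m := by
  classical
  have : Fact (Nat.Prime 3) := ⟨Nat.prime_three⟩
  obtain ⟨n, hn⟩ : ∃ n, n = Fintype.card V := ⟨_, rfl⟩
  refine le_of_forall_pos_le_add fun δ hδ => ?_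
  obtain ⟨ε, hε, hεδ⟩ : ∃ ε : ℝ, 0 < ε ∧ (n + 2) * ε = δ :=
    ⟨δ / (n + 2), by positivity, by field_simp⟩
  choose Ef hEf1 hEf2 using fun i : ℕ => smallN G i hε
  have hE' : (1 : W G) ∉ (insert m (Finset.range (n + 1))).biUnion Ef := by
    rw [Finset.mem_biUnion]
    rintro ⟨i, _, h⟩
    exact hEf1 i h
  obtain ⟨Y, fY, neY, P, ev, e1, e2, e3, e4⟩ :=
    nilp 3 V G ((insert m (Finset.range (n + 1))).biUnion Ef) (by norm_num) hE'
  have hc : (0 : ℝ) < Fintype.card Y := by exact_mod_cast Fintype.card_pos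
  have hbe : ∀ i ∈ insert m (Finset.range (n + 1)), (beta G (pull ℝ P.a) Set.univ ∅ i : ℝ) ≤
      (bet G i + ε) * Fintype.card Y := fun i hi => hEf2 i Y P.a ev P.inv P.comm e1 e2 e3 fun g hg =>
    e4 g (Finset.mem_biUnion.2 ⟨i, hi, hg⟩)
  have hs := Pool.Agent.W723.SM.beta_sum (two_ne_zero : (2 : ℝ) ≠ 0) G P.a P.sgn P.inv P.comm P.sgn_self P.sgn_other
  rw [← hn] at hs
  have hs2 : (Fintype.card Y : ℝ) * chiW G = ∑ i ∈ Finset.range (n + 1), (-1 : ℝ) ^ i *
      (beta G (pull ℝ P.a) Set.univ ∅ i : ℝ) := by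
    have h1 := congrArg (fun q : ℚ => (q : ℝ)) hs
    push_cast at h1
    exact h1.symm
  have h1 : |(Fintype.card Y : ℝ) * chiW G| ≤ ∑ i ∈ Finset.range (n + 1),
      (beta G (pull ℝ P.a) Set.univ ∅ i : ℝ) := by
    rw [hs2]
    refine (Finset.abs_sum_le_sum_abs _ _).trans (le_of_eq (Finset.sum_congr rfl fun i _ => ?_))
    rw [abs_mul, abs_pow, abs_neg, abs_one, one_pow, one_mul, Nat.abs_cast]
  have h2 : ∑ i ∈ Finset.range (n + 1), (beta G (pull ℝ P.a) Set.univ ∅ i : ℝ) ≤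
      (bet G m + (n + 2) * ε) * Fintype.card Y := by
    calc ∑ i ∈ Finset.range (n + 1), (beta G (pull ℝ P.a) Set.univ ∅ i : ℝ)
        ≤ ∑ i ∈ Finset.range (n + 1), ((if i = m then bet G m else 0) + ε) * Fintype.card Y := by
          refine Finset.sum_le_sum fun i hi => ?_
          refine (hbe i (Finset.mem_insert_of_mem hi)).trans ?_
          by_cases him : i = m
          · rw [if_pos him, him]
          · rw [if_neg him, (bet_eq_zero i).2 (hv i him)]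
      _ = ((∑ i ∈ Finset.range (n + 1), if i = m then bet G m else 0) + (n + 1) * ε) * Fintype.card Y := by
          rw [← Finset.sum_mul, Finset.sum_add_distrib, Finset.sum_const, Finset.card_range, nsmul_eq_mul]
          push_cast
          ring
      _ ≤ (bet G m + (n + 2) * ε) * Fintype.card Y := by
          refine mul_le_mul_of_nonneg_right ?_ hc.le
          have h3 : (∑ i ∈ Finset.range (n + 1), if i = m then bet G m else 0) ≤ bet G m := by
            rw [Finset.sum_ite_eq']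
            split_ifs
            · exact le_rfl
            · exact bet_nonneg m
          nlinarith
  rw [abs_mul, abs_of_pos hc] at h1
  have h3 := h1.trans h2
  rw [mul_comm] at h3
  have h4 := le_of_mul_le_mul_right h3 hc
  rw [hεδ] at h4
  exact h4

end Pool.Agent.P8H64.TQ
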