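import Pool.Agent.P8H64.TP.Pent
import Pool.Agent.P8H64.TQ.KazN

/-!
# The 18-gon
-/

set_option autoImplicit false
set_option linter.unusedSectionVars false

namespace Pool.Agent.P8H64.TQ

open Pool.Agent.W907.SG Pool.Agent.W907.SM Pool.Agent.TH652.Join Pool.Agent.TH652.Above
open Pool.Agent.N496.LT.E1P Pool.Agent.P8H64.TP

/-- the 18-gon -/
abbrev C18 : SimpleGraph (Fin 18) := SimpleGraph.cycleGraph 18

theorem no_tri : ∀ a b c : Fin 18, ¬ (C18.Adj a b ∧ C18.Adj b c ∧ C18.Adj a c) := by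
  decide +kernel

theorem adj_step : ∀ a b : Fin 18, C18.Adj a b ↔ (b = a + 1 ∨ a = b + 1) := by
  decide +kernel

theorem clique_pair (v : Fin 18) : ∀ a ∈ ({v, v + 1} : Finset (Fin 18)), ∀ b ∈ ({v, v + 1} : Finset (Fin 18)),
    a ≠ b → C18.Adj a b := by
  revert v; decide +kernel

theorem cl18 (S : Finset (Fin 18)) (hS : C18.IsClique (S : Set (Fin 18))) :
    S = ∅ ∨ (∃ v, S = {v}) ∨ ∃ v, S = {v, v + 1} := by
  rcases Nat.lt_or_ge 2 S.card with h | h
  · obtain ⟨a, ha, b, hb, c, hc, hab, hac, hbc⟩ := Finset.two_lt_card.1 h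
    exact absurd ⟨hS ha hb hab, hS hb hc hbc, hS ha hc hac⟩ (no_tri a b c)
  · rcases Nat.lt_or_ge 1 S.card with h1 | h1
    · obtain ⟨a, b, hab, rfl⟩ := Finset.card_eq_two.1 (show S.card = 2 by omega)
      right; right
      rcases (adj_step a b).1 (hS (by simp) (by simp) hab) with rfl | rfl
      · exact ⟨a, rfl⟩
      · exact ⟨b, Finset.pair_comm _ _⟩
    · rcases Nat.eq_zero_or_pos S.card with h0 | h0
      · exact Or.inl (Finset.card_eq_zero.1 h0)
      · exact Or.inr (Or.inl (Finset.card_eq_one.1 (by omega)))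

theorem pair18 (a b : Fin 18) (hab : a ≠ b) (hn : ¬ C18.Adj a b) :
    bb C18 {a, b} 0 = 0 ∧ ∀ i, bb C18 {a, b} (i + 1) = if i = 0 then 1 else 0 := by
  have h := bb_susp (G := C18) (A := {a, b}) (s := a) (t := b) (by simp) (by simp) hab hn (by
    intro w hw h1 h2
    rcases hw with h | h
    · exact absurd h h1
    · exact absurd h h2)
  refine ⟨h.1, fun i => ?_⟩
  rw [h.2 i, sdiff_self]
  exact bb_empty C18 i

theorem lk_one (v : Fin 18) : lk C18 {v} = {v + 1, v - 1} := by
  ext u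
  have h : ∀ u v : Fin 18, (∀ w ∈ ({v} : Finset (Fin 18)), C18.Adj u w) ↔ (u = v + 1 ∨ u = v - 1) := by
    decide +kernel
  exact h u v

theorem lk_two (v : Fin 18) : lk C18 {v, v + 1} = ∅ := by
  rw [Set.eq_empty_iff_forall_notMem]
  intro u
  have h : ∀ u v : Fin 18, ¬ (∀ w ∈ ({v, v + 1} : Finset (Fin 18)), C18.Adj u w) := by
    decide +kernel
  exact h u v

/-- the paths -/
theorem path18 : ∀ k : ℕ, ∀ j : Fin 18, 1 ≤ j.1 → j.1 + k = 17 → ∀ i, bb C18 {x : Fin 18 | j ≤ x} i = 0 := by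
  intro k
  induction k with
  | zero =>
    intro j _ hj i
    have hj' : j = 17 := by apply Fin.ext; simpa using hj
    subst hj'
    refine bb_cone (u := 17) (by simp) ?_ i
    intro w hw h
    have : ∀ w : Fin 18, 17 ≤ w → w ≠ 17 → C18.Adj 17 w := by decide +kernel
    exact this w hw h
  | succ k ih =>
    intro j hj1 hj i
    have hs : ∀ j : Fin 18, j.1 < 17 → (j + 1).1 = j.1 + 1 := by decide +kernel
    have h1 := ih (j + 1) (by rw [hs j (by omega)]; omega) (by rw [hs j (by omega)]; omega) i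
    have hj17 : j.1 < 17 := by omega
    have e : {x : Fin 18 | j ≤ x} = insert j {x : Fin 18 | j + 1 ≤ x} := by
      ext x
      have : ∀ j x : Fin 18, j.1 < 17 → (j ≤ x ↔ (x = j ∨ j + 1 ≤ x)) := by decide +kernel
      exact this j x hj17
    rw [e, ← h1]
    refine bb_dom (v := j) (u := j + 1) ?_ ?_ ?_ ?_ i
    · have : ∀ j : Fin 18, j.1 < 17 → ¬ j + 1 ≤ j := by decide +kernel
      exact this j hj17
    · exact le_refl (j + 1)
    · have : ∀ j : Fin 18, C18.Adj j (j + 1) := by decide +kernel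
      exact this j
    · intro w hw h3 h4
      have : ∀ j w : Fin 18, 1 ≤ j.1 → j.1 < 17 → j + 1 ≤ w → C18.Adj j w → w ≠ j + 1 → C18.Adj (j + 1) w := by
        decide +kernel
      exact this j w hj1 hj17 hw h3 h4

theorem all18 : bb C18 Set.univ 0 = 0 ∧ bb C18 Set.univ 1 = 0 ∧
    ∀ i, bb C18 Set.univ (i + 2) = if i = 0 then 1 else 0 := by
  have e0 : (Set.univ : Set (Fin 18)) = insert 0 {x : Fin 18 | 1 ≤ x} := by
    ext x
    have : ∀ x : Fin 18, x = 0 ∨ 1 ≤ x := by decide +kernel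
    exact ⟨fun _ => this x, fun _ => trivial⟩
  have k3 : ∀ i, bb C18 {x : Fin 18 | 1 ≤ x} i = 0 := path18 16 1 (by decide) (by decide)
  have e1 : {x : Fin 18 | 1 ≤ x} ∩ C18.neighborSet 0 = {1, 17} := by
    ext w
    have : ∀ w : Fin 18, (1 ≤ w ∧ C18.Adj 0 w) ↔ (w = 1 ∨ w = 17) := by decide +kernel
    exact this w
  have h0 : (0 : Fin 18) ∉ {x : Fin 18 | 1 ≤ x} := by
    have : ¬ (1 : Fin 18) ≤ 0 := by decide +kernel
    exact this
  obtain ⟨p1, p2⟩ := pair18 1 17 (by decide +kernel) (by decide +kernel)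
  have s : ∀ i, bb C18 Set.univ (i + 1) = bb C18 {1, 17} i := by
    intro i
    have u1 := bb_vert (G := C18) h0 i
    have u2 := bb_lnk (G := C18) h0 i
    rw [k3, e1, ← e0] at u1
    rw [k3, e1, ← e0] at u2
    omega
  refine ⟨?_, ?_, fun i => ?_⟩
  · have := bb_vert0 (G := C18) h0
    rw [k3, ← e0] at this
    omega
  · rw [s 0, p1]
  · rw [s (i + 1), p2 i]

theorem hsph18 : HSph 2 C18 := by
  intro S hS i
  rcases cl18 S hS with rfl | ⟨v, rfl⟩ | ⟨v, rfl⟩
  · have hl : lk C18 (∅ : Finset (Fin 18)) = Set.univ := by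
      ext x; simp [lk]
    rw [hl, Finset.card_empty]
    show bb C18 Set.univ i = _
    obtain ⟨a1, a2, a3⟩ := all18
    match i with
    | 0 => rw [a1]; simp
    | 1 => rw [a2]; simp
    | i + 2 => rw [a3]; simp
  · rw [lk_one, Finset.card_singleton]
    show bb C18 {v + 1, v - 1} i = _
    obtain ⟨a1, a2⟩ := pair18 (v + 1) (v - 1) (by revert v; decide +kernel) (by revert v; decide +kernel)
    match i with
    | 0 => rw [a1]; simp
    | i + 1 => rw [a2]; simp
  · have hc : ({v, v + 1} : Finset (Fin 18)).card = 2 := by revert v; decide +kernel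
    rw [lk_two, hc]
    show bb C18 ∅ i = _
    rw [bb_empty]
    simp

theorem chi18 : chiW C18 = -7 / 2 := by
  classical
  have h1 : chiW C18 = ∑ T ∈ (insert ∅ ((Finset.univ.image fun v : Fin 18 => ({v} : Finset (Fin 18))) ∪
      Finset.univ.image fun v : Fin 18 => ({v, v + 1} : Finset (Fin 18)))), (-1 / 2 : ℚ) ^ T.card := by
    unfold chiW
    refine Eq.trans (b := ∑ T ∈ Finset.univ.filter (fun T : Finset (Fin 18) => C18.IsClique (T : Set (Fin 18))),
      (-1 / 2 : ℚ) ^ T.card) ?_ ?_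
    · rw [Finset.sum_filter]
      refine Finset.sum_congr rfl fun T _ => ?_
      by_cases hT : C18.IsClique (T : Set (Fin 18))
      · rw [if_pos hT, if_pos hT]
      · rw [if_neg hT, if_neg hT]
    refine Finset.sum_congr ?_ fun _ _ => rfl
    ext T
    simp only [Finset.mem_filter, Finset.mem_univ, true_and, Finset.mem_insert, Finset.mem_union,
      Finset.mem_image]
    constructor
    · intro h
      rcases cl18 T h with h | ⟨v, h⟩ | ⟨v, h⟩
      · exact Or.inl h
      · exact Or.inr (Or.inl ⟨v, h.symm⟩)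
      · exact Or.inr (Or.inr ⟨v, h.symm⟩)
    · rintro (rfl | ⟨v, rfl⟩ | ⟨v, rfl⟩)
      · simp
      · simp
      · intro a ha b hb hab
        exact clique_pair v a ha b hb hab
  rw [h1]
  decide +kernel

theorem van18 (i : ℕ) (hi : i ≠ 1) : L2Van C18 i := by
  have hH : Pool.Agent.N13.EU.Hered 2 C18 :=
    (Pool.Agent.N13.PL.hered_iff2 Pool.Agent.N13.PL.three hsph18).2 fun T m hT hm hm' => by omega
  exact Pool.Agent.N13.EU.singer_hered hsph18 hH i (by omega)

theorem bet18 : 7 / 2 ≤ bet C18 1 := by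
  have h := chi_le_bet C18 1 van18
  rw [chi18] at h
  refine le_trans (le_of_eq ?_) h
  push_cast
  rw [abs_of_neg (by norm_num)]
  norm_num

end Pool.Agent.P8H64.TQ
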