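import Pool.Agent.P8H64.TP.Main
import Pool.Agent.P8H64.TQ.Gon
import Pool.Agent.N13.EU.Last

/-!
# Bounds for the `ℓ²`-Betti numbers outside the middle degree which are exponential in the number of vertices
-/

set_option autoImplicit false
set_option linter.unusedSectionVars false
set_option linter.style.haveILetI false

namespace Pool.Agent.P8H64.TQ

open Pool.Agent.W907.SG Pool.Agent.W907.SM Pool.Agent.TH652.Join Pool.Agent.TH652.Above Polynomial
open Pool.Agent.P8H64.TP Pool.Agent.N13.EU Pool.Agent.R703.CW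

/-- A class of flag homology spheres (`C n V G`: the flag complex of the graph `G` on `V` is a member of dimension
`n - 1`), closed under joins and containing the pentagon (`JoinClass`), which is also closed under links of simplices
and contains the 18-gon. For example all flag homology spheres, or those which are combinatorial spheres. -/
structure GapClass (C : ∀ (n : ℕ) (V : Type) [Fintype V] [LinearOrder V], SimpleGraph V → Prop) : Prop
    extends JoinClass C where
  /-- links; the link of the simplex `T` is the flag complex of the subgraph spanned by the vertices which are adjacent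
  to all elements of `T` -/
  link : ∀ (n : ℕ) (V : Type) [Fintype V] [LinearOrder V] (G : SimpleGraph V), C n V G →
    ∀ T : Finset V, G.IsClique (T : Set V) → ∀ [Fintype ↥(lk G T)],
      C (n - T.card) ↥(lk G T) (G.induce (lk G T))
  /-- the 18-gon -/
  gon : C 2 (Fin 18) (SimpleGraph.cycleGraph 18)

/-- the statement of Q1 -/
def QOne (C : Cl) : Prop :=
  ∀ (n : ℕ) (V : Type) [Fintype V] [LinearOrder V] (G : SimpleGraph V), C n V G →
    ((∀ i : ℕ, L2Van G i) ↔ chiW G = 0)

/-- the bound in the dimension `n - 1` -/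
def Bnd (C : Cl) (θ A : ℝ) (n : ℕ) : Prop :=
  ∀ (V : Type) [Fintype V] [LinearOrder V] (G : SimpleGraph V), C n V G → chiW G = 0 →
    bet G (n / 2 + 1) ≤ A * θ ^ Fintype.card V

/-- exponential bounds in infinitely many dimensions -/
def Gap (C : Cl) : Prop :=
  ∃ θ A : ℝ, 0 < θ ∧ θ ^ 18 < 7 / 2 ∧ ∀ N : ℕ, ∃ n : ℕ, N ≤ n ∧ Bnd C θ A n

theorem gon_poly : bp C18 = C (bet C18 1) * X := by
  ext i
  rw [bp_coeff, coeff_C_mul, coeff_X]
  by_cases hi : 1 = i
  · rw [if_pos hi, ← hi, mul_one]
  · rw [if_neg hi, mul_zero]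
    exact (bet_eq_zero i).2 (van18 i fun h => hi h.symm)

open Classical in
/-- `x` if `p`, and `0` otherwise -/
noncomputable def ff (p : Prop) (x : ℚ) : ℚ := if p then x else 0

theorem ff_pos {p : Prop} (h : p) (x : ℚ) : ff p x = x := if_pos h

theorem ff_neg {p : Prop} (h : ¬ p) (x : ℚ) : ff p x = 0 := if_neg h

theorem chi_ff {V : Type} [Fintype V] (G : SimpleGraph V) :
    chiW G = ∑ T : Finset V, ff (G.IsClique (T : Set V)) ((-1 / 2 : ℚ) ^ T.card) := by
  unfold chiW
  refine Finset.sum_congr rfl fun T _ => ?_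
  by_cases h : G.IsClique (T : Set V)
  · rw [if_pos h, ff_pos h]
  · rw [if_neg h, ff_neg h]

theorem clique_join {V U : Type} [Fintype V] [Fintype U] (G : SimpleGraph V)
    (H : SimpleGraph U) (F : Finset (V ⊕ U)) : (join G H).IsClique (F : Set (V ⊕ U)) ↔
      G.IsClique (F.toLeft : Set V) ∧ H.IsClique (F.toRight : Set U) := by
  constructor
  · intro h
    refine ⟨fun a ha b hb hab => ?_, fun a ha b hb hab => ?_⟩
    · rw [Finset.mem_coe, Finset.mem_toLeft] at ha hb
      exact h ha hb fun e => hab (Sum.inl_injective e)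
    · rw [Finset.mem_coe, Finset.mem_toRight] at ha hb
      exact h ha hb fun e => hab (Sum.inr_injective e)
  · rintro ⟨h1, h2⟩ x hx y hy hxy
    cases x with
    | inl a =>
      cases y with
      | inl b =>
        exact h1 (Finset.mem_coe.2 (Finset.mem_toLeft.2 hx)) (Finset.mem_coe.2 (Finset.mem_toLeft.2 hy))
          (fun e => hxy (congrArg _ e))
      | inr b => exact trivial
    | inr a =>
      cases y with
      | inl b => exact trivial
      | inr b =>
        exact h2 (Finset.mem_coe.2 (Finset.mem_toRight.2 hx)) (Finset.mem_coe.2 (Finset.mem_toRight.2 hy))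
          (fun e => hxy (congrArg _ e))

theorem chi_join {V U : Type} [Fintype V] [Fintype U] (G : SimpleGraph V)
    (H : SimpleGraph U) : chiW (join G H) = chiW G * chiW H := by
  rw [chi_ff, chi_ff, chi_ff, Finset.sum_mul_sum, ← Finset.sum_product', Finset.univ_product_univ]
  refine Finset.sum_equiv Finset.sumEquiv.toEquiv (fun _ => by simp) fun F _ => ?_
  show ff ((join G H).IsClique (F : Set (V ⊕ U))) ((-1 / 2 : ℚ) ^ F.card) =
    ff (G.IsClique (F.toLeft : Set V)) ((-1 / 2 : ℚ) ^ F.toLeft.card) *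
    ff (H.IsClique (F.toRight : Set U)) ((-1 / 2 : ℚ) ^ F.toRight.card)
  have h := clique_join G H F
  by_cases h1 : G.IsClique (F.toLeft : Set V)
  · by_cases h2 : H.IsClique (F.toRight : Set U)
    · rw [ff_pos (h.2 ⟨h1, h2⟩), ff_pos h1, ff_pos h2, ← pow_add, Finset.card_toLeft_add_card_toRight]
    · rw [ff_neg (fun h3 => h2 (h.1 h3).2), ff_neg h2, mul_zero]
  · rw [ff_neg (fun h3 => h1 (h.1 h3).1), ff_neg h1, zero_mul]

/-- members with Euler characteristic zero with given dimension, number of vertices and generating polynomial -/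
def Mem0 (C : Cl) (n v : ℕ) (P : ℝ[X]) : Prop :=
  ∃ (V : Type) (_ : Fintype V) (_ : LinearOrder V) (G : SimpleGraph V), C n V G ∧ Fintype.card V = v ∧ bp G = P ∧
    chiW G = 0

theorem Mem0.mul {C : Cl} (hC : JoinClass C) {n v : ℕ} {P : ℝ[X]} {n' v' : ℕ} {P' : ℝ[X]} (h : Mem0 C n v P)
    (h' : Mem C n' v' P') : Mem0 C (n + n') (v + v') (P * P') := by
  obtain ⟨V, fV, oV, G, h1, h2, h3, h4⟩ := h
  obtain ⟨U, fU, oU, H, h1', h2', h3'⟩ := h'
  refine ⟨V ⊕ U, inferInstance, ordSum V U, join G H, hC.join _ _ _ _ G H h1 h1', ?_, ?_, ?_⟩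
  · rw [Fintype.card_sum, h2, h2']
  · rw [bp_join, h3, h3']
  · rw [chi_join, h4, zero_mul]

theorem Mem0.gons {C : Cl} (hC : JoinClass C) (h18 : C 2 (Fin 18) C18) {n v : ℕ} {P : ℝ[X]} (h : Mem0 C n v P)
    (r : ℕ) : Mem0 C (n + 2 * r) (v + 18 * r) (P * (Polynomial.C (bet C18 1) * X) ^ r) := by
  induction r with
  | zero => simpa using h
  | succ r ih =>
    have hF : Mem C 2 18 (Polynomial.C (bet C18 1) * X) := ⟨Fin 18, _, _, _, h18, by simp, gon_poly⟩
    have := ih.mul hC hF
    rw [show n + 2 * (r + 1) = n + 2 * r + 2 by ring, show v + 18 * (r + 1) = v + 18 * r + 18 by ring,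
      pow_succ, ← mul_assoc]
    exact this

theorem grow {C : Cl} (hC : JoinClass C) (h18 : C 2 (Fin 18) C18) {θ A : ℝ} (hθ : 0 < θ) (hθ18 : θ ^ 18 < 7 / 2)
    {n0 v : ℕ} {P : ℝ[X]} (hm : Mem0 C n0 v P) (hpos : 0 < P.coeff (n0 / 2 + 1)) :
    ∃ N : ℕ, ∀ n : ℕ, N ≤ n → n % 2 = n0 % 2 → ¬ Bnd C θ A n := by
  set f := bet C18 1 with hf
  have hf1 : 7 / 2 ≤ f := bet18
  have hθp : 0 < θ ^ 18 := by positivity
  have hρ : 1 < f / θ ^ 18 := by rw [one_lt_div hθp]; linarith
  obtain ⟨R, hR⟩ := pow_unbounded_of_one_lt (A * θ ^ v / P.coeff (n0 / 2 + 1)) hρ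
  refine ⟨n0 + 2 * R, fun n hn hpar hb => ?_⟩
  obtain ⟨r, hr⟩ : ∃ r, r = (n - n0) / 2 := ⟨_, rfl⟩
  have hrn : n = n0 + 2 * r := by omega
  have hrR : R ≤ r := by omega
  obtain ⟨V, fV, oV, G, hG, hcard, hbp, hchi⟩ := hm.gons hC h18 r
  rw [← hrn] at hG
  have h1 := hb V G hG hchi
  have hbet : bet G (n / 2 + 1) = f ^ r * P.coeff (n0 / 2 + 1) := by
    have h2 := coeff_mix (P := P) (f := f) 1 r (n / 2 + 1)
    rw [pow_one] at h2
    rw [← bp_coeff, hbp, h2, if_pos (by omega)]
    congr 2
    omega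
  rw [hbet, hcard] at h1
  have h3 : (f / θ ^ 18) ^ r * P.coeff (n0 / 2 + 1) ≤ A * θ ^ v := by
    rw [div_pow, div_mul_eq_mul_div, div_le_iff₀ (by positivity)]
    refine h1.trans (le_of_eq ?_)
    rw [pow_add, pow_mul]
    ring
  have h4 : (f / θ ^ 18) ^ R ≤ (f / θ ^ 18) ^ r := pow_le_pow_right₀ hρ.le hrR
  have h5 : A * θ ^ v < (f / θ ^ 18) ^ r * P.coeff (n0 / 2 + 1) := by
    rw [← div_lt_iff₀ hpos]
    exact hR.trans_le h4
  linarith

/-- from one degree in the odd dimensions to all dimensions -/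
theorem singer_of_odd {C : Cl} (hC : GapClass C)
    (h : ∀ (n : ℕ) (V : Type) [Fintype V] [LinearOrder V] (G : SimpleGraph V), C n V G → n % 2 = 1 →
      L2Van G (n / 2 + 1)) : Singer C := by
  classical
  have key : ∀ N : ℕ, ∀ n ≤ N, ∀ (V : Type) [Fintype V] [LinearOrder V] (G : SimpleGraph V), C n V G →
      ∀ i : ℕ, 2 * i ≠ n → L2Van G i := by
    intro N
    induction N with
    | zero =>
      intro n hn V _ _ G hG i hi
      exact singer_hered (hC.sph _ _ _ hG) ((hered_iff (hC.sph _ _ _ hG)).2 fun T m hT hm hm' => by omega) i hi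
    | succ N ih =>
      intro n hn V _ _ G hG i hi
      rcases Nat.lt_or_ge N n with h2 | h2
      swap
      · exact ih n h2 V G hG i hi
      have hS := hC.sph _ _ _ hG
      have abv : ∀ r : ℕ, ∀ T : Finset V, G.IsClique (T : Set V) → T.Nonempty → T.card + r = n →
          Abv G (lk G T) r := by
        intro r
        induction r using Nat.strong_induction_on with
        | _ r ihr =>
        intro T hT hT0 hr A hA i hi
        have hT1 := Finset.card_pos.2 hT0
        have hl : LV (G.induce (lk G T)) i := by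
          have hm := hC.link n V G hG T hT
          rw [show n - T.card = r by omega] at hm
          exact Pool.Agent.N13.EU.lv_of (ih r (by omega) _ _ hm i (by omega))
        refine descend G (lk G T) i hl (fun w hw Y hY => ?_) A hA
        rw [lk_ins] at hY
        have h1 := card_le_of_hsph hS _ (clique_ins hT hw)
        rw [card_ins hw] at h1
        exact ihr (r - 1) (by omega) (insert w T) (clique_ins hT hw) ⟨w, Finset.mem_insert_self _ _⟩
          (by rw [card_ins hw]; omega) Y hY i (by omega)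
      refine singer_hered hS ((hered_iff hS).2 fun T m hT hm hm' U hU => ?_) i hi
      rcases T.eq_empty_or_nonempty with hT0 | hT0
      · subst hT0
        rw [Finset.card_empty] at hm
        have h3 := h n V G hG (by omega)
        rw [show n / 2 + 1 = m + 1 by omega] at h3
        have h4 : LV (G.induce (Set.univ : Set V)) (m + 1) := by
          rw [lv_univ]
          exact Pool.Agent.N13.EU.lv_of h3
        refine descend G Set.univ (m + 1) h4 (fun w _ Y hY => ?_) (U : Set V) (Set.subset_univ _) _ _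
        rw [Set.univ_inter, ← Pool.Agent.N13.PL.nb_lk] at hY
        exact abv (n - 1) {w} (by simp) (Finset.singleton_nonempty w) (by rw [Finset.card_singleton]; omega) Y hY
          (m + 1) (by omega)
      · exact abv (2 * m + 1) T hT hT0 hm (U : Set V) (fun v hv => ((hU v).1 hv).1) (m + 1) (by omega) _ _
  exact fun n V _ _ G hG i hi => key n n le_rfl V G hG i hi

theorem singer_of_gap {C : Cl} (hC : GapClass C) (h : Gap C) : Singer C := by
  obtain ⟨θ, A, hθ, hθ18, h⟩ := h
  refine singer_of_odd hC fun n V _ _ G hG hn => ?_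
  by_contra hv
  have hb : bet G (n / 2 + 1) ≠ 0 := fun h => hv ((bet_eq_zero _).1 h)
  have hpos : 0 < bet G (n / 2 + 1) := lt_of_le_of_ne (bet_nonneg _) (Ne.symm hb)
  have hm : Mem0 C n (Fintype.card V) (bp G) :=
    ⟨V, _, _, G, hG, rfl, rfl, chi_odd (hC.sph _ _ _ hG) hn⟩
  obtain ⟨N1, hN1⟩ := grow hC.toJoinClass hC.gon (A := A) hθ hθ18 hm (by rw [bp_coeff]; exact hpos)
  have hm2 : Mem0 C (n + n) (Fintype.card V + Fintype.card V) (bp G * bp G) :=
    hm.mul hC.toJoinClass ⟨V, _, _, G, hG, rfl, rfl⟩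
  have hpos2 : 0 < (bp G * bp G).coeff ((n + n) / 2 + 1) := by
    rw [show (n + n) / 2 + 1 = (n / 2 + 1) + (n / 2 + 1) by omega, coeff_mul]
    refine lt_of_lt_of_le (mul_pos hpos hpos) ?_
    rw [← bp_coeff]
    refine Finset.single_le_sum (f := fun x : ℕ × ℕ => (bp G).coeff x.1 * (bp G).coeff x.2)
      (fun x _ => mul_nonneg (bp_NN G _) (bp_NN G _)) (a := (n / 2 + 1, n / 2 + 1)) ?_
    rw [Finset.HasAntidiagonal.mem_antidiagonal]
  obtain ⟨N2, hN2⟩ := grow hC.toJoinClass hC.gon (A := A) hθ hθ18 hm2 hpos2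
  obtain ⟨n', hn', hB⟩ := h (max N1 N2)
  rcases Nat.mod_two_eq_zero_or_one n' with h3 | h3
  · exact hN2 n' ((le_max_right _ _).trans hn') (by omega) hB
  · exact hN1 n' ((le_max_left _ _).trans hn') (by omega) hB

theorem qone_of_singer {C : Cl} (h : Singer C) : QOne C := fun n V _ _ G hG =>
  l2eul V G (n / 2) fun i hi => h n V G hG i (by omega)

theorem gap_of_qone {C : Cl} (h : QOne C) : Gap C := by
  refine ⟨1, 0, one_pos, by norm_num, fun N => ⟨N, le_rfl, fun V _ _ G hG hchi => ?_⟩⟩
  rw [zero_mul]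
  exact ((bet_eq_zero _).2 ((h _ V G hG).2 hchi _)).le

theorem all_gap : GapClass (fun n V _ _ G => HSph n G) where
  sph := fun _ _ _ _ _ h => h
  join := fun _ _ _ _ _ _ _ _ _ _ h1 h2 => hsph_join h1 h2
  pent := hsph5
  link := fun n V _ _ G hG T hT _ => by
    exact hsph_link hG T hT
  gon := hsph18

end Pool.Agent.P8H64.TQ
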